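import Pool.Agent.Run7.h178.SL.Fin2

/-!
# After slides of the 2-cells all subcomplexes of a finite contractible 2-complex have free-by-cyclic,
# in particular locally indicable fundamental groups

Definitions (`Pool.Agent.R655.LI.Defs` of the starting library, `Run7.h178.SL.Stm`, `.Main2`):

* `Cx`: a 2-complex with one vertex, 1-cells `V`, 2-cells `R`, attaching words `r : R → FreeGroup V`;
  `K.Pi` its fundamental group; `L.Contractible`: `π₁(L) = 1` and the boundary operator `C₂ → C₁` is
  injective; `L.IsFin`: finitely many cells; `Sub K L`: `K` is (identified with) a subcomplex of `L`, with
  the injection `s.c` of the 2-cells; `L.del e`: the 2-cell `e` is removed; `expSum V w`: the exponent sum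
  vector of the word `w`;
* `LocInd G`: every nontrivial finitely generated subgroup of `G` maps onto `ℤ`;
* `FreeByInt G`: some homomorphism `G → ℤ` has a free kernel;
* `FgFreeByInt G`: some surjective homomorphism `G → ℤ` has a finitely generated free kernel, so
  `G = F_m ⋊ ℤ`;
* `QEq r r'`: the family `r'` of words is obtained from `r` by finitely many slides `QStep`: a word `r j` is
  multiplied by another word `r k` of the family, or inverted, or conjugated. (So the 2-complex of `r'` is
  obtained from the 2-complex of `r` by a 3-deformation which does not change the 1-skeleton.)

Proof. By slides the exponent sum vectors become the unit vectors (row operations over `ℤ`): the exponent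
sum vector of the relator `i` is that of the generator `x_i`. Then each relator `r i` is multiplied by the
commutator of `w = ∏_{k ≠ i} x_k ^ M * x_i * x_k ^ (-2 M) * x_i * x_k ^ M` and `n = ∏_{k ≠ i} r k`, `M` large; this
is a composition of slides. For every `j ≠ i`, in the letters `x_j ^ h * x_v * x_j ^ (-h)` the new relator
has exactly one letter of maximal height `h` and exactly one letter of minimal height, and both are
letters of `x_i`. So if the 2-cell `j` is missing, the shifted relators express the letters of large and of
small heights by those of bounded height, and one endomorphism of the free group on the letters kills all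
the relators and is the identity modulo the relators; the kernel of the exponent sum of `x_j` is
isomorphic to its image.

The piece SLIDE is by helper959, GAUSS by helper216; the piece FREE uses the lemmas of the piece LI (the
first version of this theorem) by helper781.
-/

set_option autoImplicit false

namespace Pool.Agent.Results.MP_cf50d6_gt.AfterSlides

open Pool.Agent.R655.LI Run7.h178.SL Function

/-- (1) The attaching words of the 2-cells of a finite contractible 2-complex `L` (with one vertex) can be
changed by finitely many slides such that the new 2-complex `L'` is contractible, the fundamental group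
of `L' - e` is `F_m ⋊ ℤ` with a finitely generated free group `F_m`, for every 2-cell `e`, and the
fundamental groups of all subcomplexes of `L'` have a homomorphism to `ℤ` with a free kernel, in
particular they are locally indicable. (2) More generally, if a finite 2-complex with one vertex
has as many 2-cells as 1-cells and the exponent sum vectors of the attaching words generate `ℤ ^ V` (an
acyclic 2-complex), then by finitely many slides, which do not change the fundamental group, it becomes a
2-complex for which the same is true for all the subcomplexes which do not contain all the 2-cells. -/
theorem result :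
    (∀ (L : Cx) [DecidableEq L.R], L.Contractible → L.IsFin →
      ∃ r' : L.R → FreeGroup L.V, QEq L.r r' ∧ (Cx.mk L.V L.R r').Contractible ∧
        (∀ e : L.R, FgFreeByInt ((Cx.mk L.V L.R r').del e).Pi) ∧
        ∀ (K : Cx) (_ : Sub K (Cx.mk L.V L.R r')), FreeByInt K.Pi ∧ LocInd K.Pi) ∧
    (∀ (V R : Type) [Fintype V] [Fintype R] [DecidableEq R] (r : R → FreeGroup V),
      Fintype.card R = Fintype.card V →
      Submodule.span ℤ (Set.range fun i => (expSum V (r i)).toAdd) = ⊤ →
      ∃ r' : R → FreeGroup V, QEq r r' ∧
        Subgroup.normalClosure (Set.range r') = Subgroup.normalClosure (Set.range r) ∧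
        (∀ e : R, FgFreeByInt ((Cx.mk V R r').del e).Pi) ∧
        ∀ (K : Cx) (s : Sub K (Cx.mk V R r')), ¬ Surjective s.c →
          FreeByInt K.Pi ∧ LocInd K.Pi) := by
  refine ⟨fun L _ hL hfin => ?_, fun V R _ _ _ r hc hr => acyclic3 V R r hc hr⟩
  obtain ⟨r', h1, h2, h3, h4⟩ := contractible2 L hL hfin
  exact ⟨r', h1, h2, h3, fun K s => ⟨(h4 K s).1, (h4 K s).2.1⟩⟩

end Pool.Agent.Results.MP_cf50d6_gt.AfterSlides
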