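import Pool.Agent.Run7.h31.White.Hom
import Pool.Agent.Run7.h31.White.Graph

/-!
# Local indicability of fundamental groups of subcomplexes and order-preserving actions

Let `K` be a finite connected subcomplex of a contractible 2-complex, with fundamental group `G`, and
let `k ≥ 1` be the rank of `H₁(K)`, so that the Euler characteristic of `K` is `1 - k`. Suppose that a
subgroup of finite index acts by order-preserving maps on a totally ordered set such that all but at
most `k - 1` times the index of its generators can be pushed upwards, or that the first `L²`-Betti number
of `G` is at most `k - 1` for another reason. We prove that the condition of local indicability holds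
for all subgroups with a finite resolution: every nontrivial finitely generated subgroup `H` of `G`,
of any index, for which the trivial module has a resolution of length two by finitely generated free
modules, for instance the fundamental group of a finite aspherical 2-complex, has nonpositive Euler
characteristic and maps onto the integers. Hence `G` is locally indicable if all finitely generated
subgroups have finite resolutions.

Outline. As in `MP_6de9fc_gt.PushedSubcomplexes` there are no square-summable 2-cycles of the universal
covering. A finite resolution of `H` is, in degree two, a retract of the sum of finitely many translates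
of the 2-chains of the universal covering; the translates belong to different cosets, so the
square-summable 2-cycles of the resolution of `H` are square-summable 2-cycles of the universal covering
and vanish, without any information on the index or on the von Neumann algebras of the subgroups. By the
Euler-Poincaré formula the Euler characteristic of `H` is minus the first `L²`-Betti number, hence not
positive. Then there are more 1-cocycles than coboundaries with constant coefficients, and one of them
gives a nonzero homomorphism from `H` to a free abelian group. Finite groups have no finite free
resolutions by counting dimensions, unless they are trivial.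
-/

set_option autoImplicit false

open scoped Matrix

universe u v

namespace Pool.Agent.Results.MP_cf50d6_gt.SubgroupsOfTypeFL

open Pool.Agent.Results.MP_984acc_gt.OrderRaising Run7.h31.Raise Run7.h31.White

/-- The trivial module over the complex group algebra of `H` has a resolution
`0 → F₂ → F₁ → F₀ → ℂ → 0` by finitely generated free modules whose alternating sum of ranks is `χ`. -/
def HasFiniteResolution (H : Type u) [Group H] (χ : ℤ) : Prop :=
  ∃ (q : ℕ → ℕ) (E : Matrices H q) (a : Fin (q 0) → ℂ), IsPartialResolution 2 E a ∧
    (∀ x : Fin (q 2) → MonoidAlgebra ℂ H, x ᵥ* E 1 = 0 → x = 0) ∧
    χ = (q 0 : ℤ) - q 1 + q 2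

/-- A subgroup of finite index is pushed with at most `k - 1` times its index exceptions, or the group
is raised in degree one with density at most `k - 1`, or `k = 1` and a subgroup of finite index acts on
a graph with finitely generated vertex stabilizers, finitely many orbits and connected upper
subgraphs. -/
def IsTight (G : Type u) [Group G] (k : ℕ) : Prop :=
  (∃ (H : Subgroup G) (c : ℕ), H.FiniteIndex ∧ IsPushed.{u, v} H c ∧
    H.index + c ≤ k * H.index) ∨
  RaisedWithDensity.{u, v} G 1 (k - 1) ∨
  (k = 1 ∧ ∃ H : Subgroup G, H.FiniteIndex ∧ HasUpperConnectedGraph.{u, v} H)

/-- **Subgroups with finite resolutions of fundamental groups of subcomplexes.** Let `K` be a finite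
connected 2-complex with infinite fundamental group `G`, let `D` be the complex of its universal
covering, which is a resolution of the trivial module up to degree two, with the ranks `r 0`, `r 1`,
`r 2`, and let `1 - k` be the Euler characteristic of `K`, where `k` is the rank of `H₁(K)` for a
subcomplex `K` of a contractible 2-complex. Suppose that `G` is tight for `k`, or that the first
`L²`-Betti number is at most `k - 1`. Then each nontrivial finitely generated subgroup `H` of `G` with a
finite resolution has nonpositive Euler characteristic and maps onto the integers. -/
theorem result (G : Type u) [Group G] [Infinite G] (r : ℕ → ℕ) (D : Matrices G r)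
    (a : Fin (r 0) → ℂ) (hD : IsPartialResolution 2 D a) (k : ℕ)
    (hk : r 0 + r 2 + k = r 1 + 1) (hG : IsTight.{u, v} G k ∨ betti D 1 + 1 ≤ k)
    (H : Subgroup G) (hH : H ≠ ⊥) (hfg : Group.FG H) (χ : ℤ) (hχ : HasFiniteResolution H χ) :
    χ ≤ 0 ∧ ∃ f : H →* Multiplicative ℤ, Function.Surjective f := by
  have hk' : (r 1 : ℝ) - r 0 - r 2 = (k : ℝ) - 1 := by
    have h1 : ((r 0 + r 2 + k : ℕ) : ℝ) = ((r 1 + 1 : ℕ) : ℝ) := by rw [hk]
    push_cast at h1
    linarith
  have hb : betti D 1 ≤ (r 1 : ℝ) - r 0 - r 2 := by
    rw [hk']
    rcases hG with (⟨L, c, hL, hp, hc⟩ | hd | ⟨rfl, L, hL, hg⟩) | hb
    · have h1 := index_partial L hL D a 1 c hD (pushed_raised hp)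
      have h2 : (0 : ℝ) < L.index := by
        exact_mod_cast Nat.pos_of_ne_zero hL.index_ne_zero
      have h3 : (L.index : ℝ) + c ≤ k * L.index := by exact_mod_cast hc
      apply le_of_mul_le_mul_left _ h2
      linarith
    · exact density_partial D a 1 _ hD hd
    · have h1 := density_partial D a 1 0 hD (density_of_upper (graph_virtually L hL hg))
      push_cast
      linarith
    · linarith
  obtain ⟨q, E, a', hE, hinj, rfl⟩ := hχ
  have h1 := sub_chi_le D a hD hb H hH E a' hE hinj
  obtain ⟨φ, hφ, g0, hg0⟩ := exists_hom E a' hE h1
  exact ⟨by omega, exists_surj hfg φ hφ g0 hg0⟩

end Pool.Agent.Results.MP_cf50d6_gt.SubgroupsOfTypeFL
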